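import Mathlib
import Pool.Agent.P8H71.SK.Stm

/-!
# Project SK, part ERG: the group `SL(d, ℝ)` acts ergodically

For a transitive continuous action of a locally compact second countable group and an invariant probability measure: a set
which is invariant modulo null sets under each element is null or conull (Fubini).
-/

set_option autoImplicit false

open MeasureTheory Set Filter Topology
open scoped ENNReal symmDiff

namespace Pool.Agent.P8H76.SK

open Pool.Agent.P8H71.SK

theorem erg_gen {G X : Type} [Group G] [TopologicalSpace G] [IsTopologicalGroup G]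
    [LocallyCompactSpace G] [SecondCountableTopology G] [MeasurableSpace G] [BorelSpace G]
    [TopologicalSpace X] [MeasurableSpace X] [BorelSpace X] [MulAction G X] [ContinuousSMul G X]
    [MulAction.IsPretransitive G X] (m : Measure X) [IsProbabilityMeasure m]
    (hm : ∀ g : G, MeasurePreserving (fun x : X => g • x) m m) (S : Set X) (hS : MeasurableSet S)
    (h : ∀ g : G, m (((fun x : X => g • x) ⁻¹' S) ∆ S) = 0) : m S = 0 ∨ m Sᶜ = 0 := by
  by_cases h0 : m S = 0
  · exact Or.inl h0
  right
  have hact : Measurable (fun z : G × X => z.1 • z.2) :=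
    (continuous_fst.smul continuous_snd).measurable
  have hP : MeasurableSet {z : G × X | z.1 • z.2 ∈ S} := hact hS
  have hQ : MeasurableSet {z : G × X | z.2 ∈ S} := measurable_snd hS
  have hPQ : MeasurableSet {z : G × X | (z.2 ∈ S → z.1 • z.2 ∈ S)} := by
    have : {z : G × X | (z.2 ∈ S → z.1 • z.2 ∈ S)}
        = {z : G × X | z.2 ∈ S}ᶜ ∪ {z : G × X | z.1 • z.2 ∈ S} := by
      ext z
      simp only [mem_ofPred_eq, mem_union, mem_compl_iff]
      tauto
    rw [this]
    exact hQ.compl.union hP
  have h1 : ∀ᵐ g ∂(Measure.haar : Measure G), ∀ᵐ x ∂m, (x ∈ S → g • x ∈ S) := by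
    refine Eventually.of_forall fun g => ?_
    have h2 : {x : X | ¬ (x ∈ S → g • x ∈ S)} ⊆ ((fun x : X => g • x) ⁻¹' S) ∆ S := by
      intro x hx
      have hx' : ¬ (x ∈ S → g • x ∈ S) := hx
      rw [Classical.not_imp] at hx'
      exact Or.inr ⟨hx'.1, hx'.2⟩
    exact measure_mono_null h2 (h g)
  rw [Measure.ae_ae_comm hPQ] at h1
  obtain ⟨x, hxS, hx⟩ : ∃ x, x ∈ S ∧ ∀ᵐ g ∂(Measure.haar : Measure G), (x ∈ S → g • x ∈ S) := by
    by_contra hcon
    refine h0 (measure_mono_null ?_ (ae_iff.1 h1))
    intro x hx hx'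
    exact hcon ⟨x, hx, hx'⟩
  have h3 : ∀ y : X, ∀ᵐ g ∂(Measure.haar : Measure G), g • y ∈ S := by
    intro y
    obtain ⟨k, rfl⟩ := MulAction.exists_smul_eq G x y
    have h4 := (quasiMeasurePreserving_mul_right (Measure.haar : Measure G) k).ae hx
    filter_upwards [h4] with g hg
    rw [smul_smul]
    exact hg hxS
  have h5 : ∀ᵐ y ∂m, ∀ᵐ g ∂(Measure.haar : Measure G), g • y ∈ S := Eventually.of_forall h3
  have h6 : ∀ᵐ g ∂(Measure.haar : Measure G), ∀ᵐ y ∂m, g • y ∈ S :=
    (Measure.ae_ae_comm (p := fun (g : G) (y : X) => g • y ∈ S) hP).2 h5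
  obtain ⟨g, hg⟩ := h6.exists
  have h7 : m ((fun y : X => g • y) ⁻¹' Sᶜ) = 0 := hg
  rwa [(hm g).measure_preimage hS.compl.nullMeasurableSet] at h7

theorem locallyCompact (d : ℕ) : LocallyCompactSpace (SLd d) := by
  have : LocallyCompactSpace (Matrix (Fin d) (Fin d) ℝ) :=
    inferInstanceAs (LocallyCompactSpace (Fin d → Fin d → ℝ))
  exact (Matrix.SpecialLinearGroup.isClosedEmbedding_val (n := Fin d) (R := ℝ)).locallyCompactSpace

theorem secondCountable (d : ℕ) : SecondCountableTopology (SLd d) := by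
  have : SecondCountableTopology (Matrix (Fin d) (Fin d) ℝ) :=
    inferInstanceAs (SecondCountableTopology (Fin d → Fin d → ℝ))
  exact (Matrix.SpecialLinearGroup.isClosedEmbedding_val (n := Fin d)
    (R := ℝ)).isEmbedding.secondCountableTopology

theorem erg : S_ERG := by
  intro d _ _ m _ hm S hS h
  have := locallyCompact d
  have := secondCountable d
  let _ : MeasurableSpace (SLd d) := borel (SLd d)
  have : BorelSpace (SLd d) := ⟨rfl⟩
  exact erg_gen m hm S hS h

end Pool.Agent.P8H76.SK
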